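import Mathlib

set_option autoImplicit false

namespace Pool.Agent.W913.PR

open Finset

/-- Vandermonde: a common divisor of the values of a polynomial at `m` points divides the
coefficients up to the determinant. -/
lemma vander {m : ℕ} (x : Fin m → ℤ) (t : Fin m → ℤ) (N : ℤ)
    (h : ∀ j, N ∣ ∑ i, x i * t j ^ (i : ℕ)) :
    ∀ i, N ∣ (Matrix.vandermonde t).det * x i := by
  intro i
  have h1 : (Matrix.vandermonde t).det * x i =
      ((Matrix.vandermonde t).adjugate.mulVec ((Matrix.vandermonde t).mulVec x)) i := by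
    rw [Matrix.mulVec_mulVec, Matrix.adjugate_mul]
    simp
  rw [h1, Matrix.mulVec, dotProduct]
  refine Finset.dvd_sum fun j _ => Dvd.dvd.mul_left ?_ _
  have h2 : (Matrix.vandermonde t).mulVec x j = ∑ i, x i * t j ^ (i : ℕ) := by
    simp only [Matrix.mulVec, dotProduct, Matrix.vandermonde_apply]
    exact Finset.sum_congr rfl fun i _ => mul_comm _ _
  rw [h2]
  exact h j

lemma det_dvd {m K : ℕ} (t : Fin m → ℕ) (ht : Function.Injective t) (hK : ∀ j, t j < K) :
    (Matrix.vandermonde (fun j => (t j : ℤ))).det ∣ ((K.factorial ^ (m * m) : ℕ) : ℤ) := by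
  rw [Matrix.det_vandermonde]
  have h1 : ∀ i j : Fin m, i ≠ j → ((t j : ℤ) - t i) ∣ (K.factorial : ℤ) := by
    intro i j hij
    have hne : t j ≠ t i := fun h => hij (ht h).symm
    rw [← Int.natAbs_dvd, Int.natCast_dvd_natCast]
    apply Nat.dvd_factorial
    · rw [Int.natAbs_pos]; omega
    · have := hK i; have := hK j; omega
  have h2 : ∀ i : Fin m, (∏ j ∈ Ioi i, ((t j : ℤ) - t i)) ∣ (K.factorial : ℤ) ^ m := by
    intro i
    calc (∏ j ∈ Ioi i, ((t j : ℤ) - t i)) ∣ ∏ j ∈ Ioi i, (K.factorial : ℤ) :=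
          Finset.prod_dvd_prod_of_dvd _ _ fun j hj => h1 i j (Finset.mem_Ioi.1 hj).ne
      _ = (K.factorial : ℤ) ^ (#(Ioi i)) := by rw [prod_const]
      _ ∣ (K.factorial : ℤ) ^ m := pow_dvd_pow _ (by
          calc #(Ioi i) ≤ #(univ : Finset (Fin m)) := card_le_card (subset_univ _)
            _ = m := by simp)
  calc (∏ i, ∏ j ∈ Ioi i, ((t j : ℤ) - t i)) ∣ ∏ i : Fin m, (K.factorial : ℤ) ^ m :=
        Finset.prod_dvd_prod_of_dvd _ _ fun i _ => h2 i
    _ = ((K.factorial ^ (m * m) : ℕ) : ℤ) := by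
        rw [prod_const, card_univ, Fintype.card_fin, ← pow_mul]; push_cast; ring

/-- the values -/
def X {m : ℕ} (x : Fin m → ℕ) (t : ℕ) : ℕ := ∑ i, x i * t ^ (i : ℕ)

lemma card_bad {m K : ℕ} (x : Fin m → ℕ) (q : ℕ) (hq : q.Prime) (hx : ∃ i, ¬ q ∣ x i) :
    #{t ∈ range K | q ^ ((K.factorial ^ (m * m)).factorization q + 1) ∣ X x t} < m := by
  by_contra hcon
  push Not at hcon
  obtain ⟨i, hi⟩ := hx
  set S := {t ∈ range K | q ^ ((K.factorial ^ (m * m)).factorization q + 1) ∣ X x t} with hS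
  let e := S.orderEmbOfCardLe hcon
  have he : ∀ j, e j ∈ S := fun j => S.orderEmbOfCardLe_mem hcon j
  have h1 := vander (fun i => (x i : ℤ)) (fun j => ((e j : ℕ) : ℤ))
    ((q ^ ((K.factorial ^ (m * m)).factorization q + 1) : ℕ) : ℤ) (fun j => by
      have h2 := (mem_filter.1 (he j)).2
      have h3 : ((X x (e j) : ℕ) : ℤ) = ∑ i, (x i : ℤ) * ((e j : ℕ) : ℤ) ^ (i : ℕ) := by
        unfold X; push_cast; rfl
      rw [← h3]
      exact_mod_cast h2) i
  have h4 := h1.trans (mul_dvd_mul_right (det_dvd (K := K) (fun j => e j) e.injective (fun j =>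
    mem_range.1 (mem_filter.1 (he j)).1)) (x i : ℤ))
  have h5 : q ^ ((K.factorial ^ (m * m)).factorization q + 1) ∣ K.factorial ^ (m * m) * x i := by
    exact_mod_cast h4
  have h6 : q ^ ((K.factorial ^ (m * m)).factorization q + 1) ∣ K.factorial ^ (m * m) := by
    refine Nat.Coprime.dvd_of_dvd_mul_right ?_ h5
    exact Nat.Coprime.pow_left _ ((Nat.Prime.coprime_iff_not_dvd hq).2 hi)
  have h7 := (hq.pow_dvd_iff_le_factorization (pow_ne_zero _ (Nat.factorial_ne_zero K))).1 h6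
  omega

lemma prod_gcd_dvd {m K M : ℕ} (hM : M ≠ 0) (hm : 0 < m) (x : Fin m → ℕ)
    (hx : ∀ q : ℕ, q.Prime → q ∣ M → ∃ i, ¬ q ∣ x i) (T : Finset ℕ) (hT : T ⊆ range K) :
    (∏ t ∈ T, Nat.gcd M (X x t)) ∣ (K.factorial ^ (m * m)) ^ #T * M ^ (m - 1) := by
  have hD : K.factorial ^ (m * m) ≠ 0 := pow_ne_zero _ (Nat.factorial_ne_zero K)
  have hg : ∀ t ∈ T, Nat.gcd M (X x t) ≠ 0 := fun t _ => by
    intro h; exact hM (Nat.eq_zero_of_gcd_eq_zero_left h)
  rw [← Nat.factorization_le_iff_dvd (prod_ne_zero_iff.2 hg) (mul_ne_zero (pow_ne_zero _ hD)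
    (pow_ne_zero _ hM))]
  intro q
  have e1 : ((K.factorial ^ (m * m)) ^ #T).factorization q =
      #T * (K.factorial ^ (m * m)).factorization q := by
    rw [Nat.factorization_pow (K.factorial ^ (m * m))]; rfl
  have e2 : (M ^ (m - 1)).factorization q = (m - 1) * M.factorization q := by
    rw [Nat.factorization_pow]; rfl
  rw [Nat.factorization_prod hg, Nat.factorization_mul (pow_ne_zero _ hD) (pow_ne_zero _ hM)]
  simp only [Finsupp.coe_finsetSum, Finset.sum_apply, Finsupp.coe_add, Pi.add_apply]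
  rw [e1, e2]
  by_cases hq : q.Prime ∧ q ∣ M
  · obtain ⟨hq, hqM⟩ := hq
    set v := (K.factorial ^ (m * m)).factorization q with hv
    have h1 : ∀ t ∈ T, (Nat.gcd M (X x t)).factorization q ≤
        v + if q ^ (v + 1) ∣ X x t then M.factorization q else 0 := by
      intro t ht
      split_ifs with h
      · exact (((Nat.factorization_le_iff_dvd (hg t ht) hM).2 (Nat.gcd_dvd_left _ _)) q).trans
          (Nat.le_add_left _ _)
      · by_contra hcon
        push Not at hcon
        apply h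
        have h2 : q ^ (v + 1) ∣ Nat.gcd M (X x t) :=
          (hq.pow_dvd_iff_le_factorization (hg t ht)).2 (by omega)
        exact h2.trans (Nat.gcd_dvd_right _ _)
    refine (sum_le_sum h1).trans ?_
    rw [sum_add_distrib, sum_const, smul_eq_mul, ← sum_filter, sum_const, smul_eq_mul]
    have h3 : #{t ∈ T | q ^ (v + 1) ∣ X x t} ≤ m - 1 := by
      have h4 := card_bad (K := K) x q hq (hx q hq hqM)
      rw [← hv] at h4
      have h5 : #{t ∈ T | q ^ (v + 1) ∣ X x t} ≤ #{t ∈ range K | q ^ (v + 1) ∣ X x t} :=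
        card_le_card (filter_subset_filter _ hT)
      omega
    gcongr
  · have h0 : ∀ t ∈ T, (Nat.gcd M (X x t)).factorization q = 0 := by
      intro t _
      rw [Nat.factorization_eq_zero_iff]
      by_cases h : q.Prime
      · right; left
        intro h2
        exact hq ⟨h, h2.trans (Nat.gcd_dvd_left _ _)⟩
      · left; exact h
    rw [sum_eq_zero h0]
    exact Nat.zero_le _

/-- In a finite cyclic group: the orders of the elements `∏ u i ^ (t ^ i)`, `t ∈ T`, are on the
whole as large as the group generated by the `u i`. -/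
theorem order_prod {G : Type*} [CommGroup G] [Finite G] [IsCyclic G] {m K : ℕ} (hm : 0 < m)
    (u : Fin m → G) (T : Finset ℕ) (hT : T ⊆ range K) :
    (Nat.card (Subgroup.closure (Set.range u))) ^ #T ≤
      (K.factorial ^ (m * m)) ^ #T * (Nat.card (Subgroup.closure (Set.range u))) ^ (m - 1) *
        ∏ t ∈ T, orderOf (∏ i, u i ^ (t ^ (i : ℕ))) := by
  classical
  set Γ := Subgroup.closure (Set.range u) with hΓ
  obtain ⟨γ, hγ⟩ := IsCyclic.exists_generator (α := Γ)
  have hord : orderOf (γ : G) = Nat.card Γ := by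
    rw [Subgroup.orderOf_coe]
    exact orderOf_eq_card_of_forall_mem_zpowers hγ
  set M := Nat.card Γ with hM
  have hM0 : M ≠ 0 := Nat.card_pos.ne'
  have hu : ∀ i, ∃ n : ℕ, (γ : G) ^ n = u i := by
    intro i
    have h1 : u i ∈ Γ := Subgroup.subset_closure ⟨i, rfl⟩
    have h2 := hγ ⟨u i, h1⟩
    rw [← mem_powers_iff_mem_zpowers] at h2
    obtain ⟨n, hn⟩ := h2
    refine ⟨n, ?_⟩
    have := congrArg (Subtype.val) hn
    simpa using this
  choose x hx using hu
  have hxq : ∀ q : ℕ, q.Prime → q ∣ M → ∃ i, ¬ q ∣ x i := by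
    intro q hq hqM
    by_contra hcon
    push Not at hcon
    have h1 : ∀ g ∈ Γ, g ^ (M / q) = 1 := by
      intro g hg
      induction hg using Subgroup.closure_induction with
      | mem g hg =>
        obtain ⟨i, rfl⟩ := hg
        rw [← hx i, ← pow_mul]
        obtain ⟨c, hc⟩ := hcon i
        rw [← orderOf_dvd_iff_pow_eq_one, hord, hc]
        refine ⟨c, ?_⟩
        rw [mul_comm q c, mul_assoc, Nat.mul_div_cancel' hqM, mul_comm]
      | one => simp
      | mul a b _ _ ha hb => rw [mul_pow, ha, hb, one_mul]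
      | inv a _ ha => rw [inv_pow, ha, inv_one]
    have h2 := h1 γ γ.2
    rw [← orderOf_dvd_iff_pow_eq_one, hord] at h2
    have h3 := Nat.le_of_dvd (Nat.div_pos (Nat.le_of_dvd (Nat.pos_of_ne_zero hM0) hqM) hq.pos) h2
    have h4 := Nat.div_lt_self (Nat.pos_of_ne_zero hM0) hq.one_lt
    omega
  have hval : ∀ t : ℕ, orderOf (∏ i, u i ^ (t ^ (i : ℕ))) = M / Nat.gcd M (X x t) := by
    intro t
    have h1 : ∏ i, u i ^ (t ^ (i : ℕ)) = (γ : G) ^ (X x t) := by
      unfold X
      rw [← Finset.prod_pow_eq_pow_sum]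
      refine prod_congr rfl fun i _ => ?_
      rw [← hx i, ← pow_mul]
    rw [h1, orderOf_pow, hord]
  have hprod := Nat.le_of_dvd (Nat.mul_pos (pow_pos (pow_pos (Nat.factorial_pos K) _) _)
    (pow_pos (Nat.pos_of_ne_zero hM0) _)) (prod_gcd_dvd hM0 hm x hxq T hT)
  calc M ^ #T = ∏ t ∈ T, (Nat.gcd M (X x t) * orderOf (∏ i, u i ^ (t ^ (i : ℕ)))) := by
        rw [← prod_const]
        refine prod_congr rfl fun t _ => ?_
        rw [hval t, Nat.mul_div_cancel' (Nat.gcd_dvd_left _ _)]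
    _ = (∏ t ∈ T, Nat.gcd M (X x t)) * ∏ t ∈ T, orderOf (∏ i, u i ^ (t ^ (i : ℕ))) :=
        prod_mul_distrib
    _ ≤ _ := Nat.mul_le_mul_right _ hprod

end Pool.Agent.W913.PR
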