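import Mathlib
import Pool.Agent.W913.PRA

set_option autoImplicit false

namespace Pool.Agent.W913.PR

open Finset

/-- multiplicative independence -/
def MI {m : ℕ} (a : Fin m → ℕ) : Prop :=
  ∀ u v : Fin m → ℕ, ∏ i, a i ^ u i = ∏ i, a i ^ v i → u = v

lemma MI.pos {m : ℕ} {a : Fin m → ℕ} (h : MI a) (i : Fin m) : 0 < a i := by
  rcases Nat.eq_zero_or_pos (a i) with h0 | h0
  · exfalso
    have h1 := h (fun _ => 1) (fun _ => 2) (by
      rw [prod_eq_zero (mem_univ i) (by simp [h0]), prod_eq_zero (mem_univ i) (by simp [h0])])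
    have := congrFun h1 i
    simp at this
  · exact h0

/-- two vectors of the box collide modulo `p` -/
def Coll {m : ℕ} (a : Fin m → ℕ) (b p : ℕ) : Prop :=
  ∃ u v : Fin m → ℕ, u ≠ v ∧ (∀ i, u i ≤ b) ∧ (∀ i, v i ≤ b) ∧
    ∏ i, (a i : ZMod p) ^ u i = ∏ i, (a i : ZMod p) ^ v i

/-- the numbers whose prime factors may be bad -/
def Nw {m : ℕ} (a : Fin m → ℕ) (w : Fin m → ℤ) : ℕ :=
  (((∏ i, a i ^ (w i).toNat : ℕ) : ℤ) - ((∏ i, a i ^ (-w i).toNat : ℕ) : ℤ)).natAbs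

lemma Nw_ne {m : ℕ} {a : Fin m → ℕ} (h : MI a) {w : Fin m → ℤ} (hw : w ≠ 0) : Nw a w ≠ 0 := by
  intro h0
  apply hw
  unfold Nw at h0
  rw [Int.natAbs_eq_zero, sub_eq_zero, Nat.cast_inj] at h0
  have h1 := h _ _ h0
  funext i
  have := congrFun h1 i
  simp only [Pi.zero_apply] at *
  omega

lemma Nw_le {m : ℕ} {a : Fin m → ℕ} (h : MI a) {w : Fin m → ℤ} {b : ℕ}
    (hw : ∀ i, -(b : ℤ) ≤ w i ∧ w i ≤ b) : Nw a w ≤ (∏ i, a i) ^ b := by
  have h1 : ∏ i, a i ^ (w i).toNat ≤ (∏ i, a i) ^ b := by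
    rw [← prod_pow]
    exact prod_le_prod' fun i _ => Nat.pow_le_pow_right (h.pos i) (by have := hw i; omega)
  have h2 : ∏ i, a i ^ (-w i).toNat ≤ (∏ i, a i) ^ b := by
    rw [← prod_pow]
    exact prod_le_prod' fun i _ => Nat.pow_le_pow_right (h.pos i) (by have := hw i; omega)
  unfold Nw
  omega

lemma card_primeFactors_le {n : ℕ} (hn : n ≠ 0) : n.primeFactors.card ≤ Nat.log 2 n := by
  apply Nat.le_log_of_pow_le (by norm_num)
  calc 2 ^ n.primeFactors.card = ∏ _p ∈ n.primeFactors, 2 := by rw [prod_const]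
    _ ≤ ∏ p ∈ n.primeFactors, p :=
        prod_le_prod' fun p hp => (Nat.prime_of_mem_primeFactors hp).two_le
    _ ≤ n := Nat.le_of_dvd (Nat.pos_of_ne_zero hn) (Nat.prod_primeFactors_dvd n)

lemma dvd_Nw {m : ℕ} (a : Fin m → ℕ) {p : ℕ} (hp : p.Prime) (hpa : ¬ p ∣ ∏ i, a i)
    (u v : Fin m → ℕ) (h : ∏ i, (a i : ZMod p) ^ u i = ∏ i, (a i : ZMod p) ^ v i) :
    p ∣ Nw a (fun i => (u i : ℤ) - v i) := by
  haveI := Fact.mk hp
  have hne : ∀ i, (a i : ZMod p) ≠ 0 := by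
    intro i h0
    rw [ZMod.natCast_eq_zero_iff] at h0
    exact hpa (h0.trans (dvd_prod_of_mem _ (mem_univ i)))
  have h1 : ∏ i, (a i : ZMod p) ^ u i =
      (∏ i, (a i : ZMod p) ^ (u i - v i)) * ∏ i, (a i : ZMod p) ^ (min (u i) (v i)) := by
    rw [← prod_mul_distrib]
    refine prod_congr rfl fun i _ => ?_
    rw [← pow_add]; congr 1; omega
  have h2 : ∏ i, (a i : ZMod p) ^ v i =
      (∏ i, (a i : ZMod p) ^ (v i - u i)) * ∏ i, (a i : ZMod p) ^ (min (u i) (v i)) := by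
    rw [← prod_mul_distrib]
    refine prod_congr rfl fun i _ => ?_
    rw [← pow_add]; congr 1; omega
  rw [h1, h2] at h
  have h3 := mul_right_cancel₀ (prod_ne_zero_iff.2 fun i _ => pow_ne_zero _ (hne i)) h
  unfold Nw
  rw [← Int.natCast_dvd, ← ZMod.intCast_zmod_eq_zero_iff_dvd]
  push_cast
  rw [sub_eq_zero]
  have e1 : ∀ i, ((u i : ℤ) - v i).toNat = u i - v i := fun i => by omega
  have e2 : ∀ i, (-((u i : ℤ) - v i)).toNat = v i - u i := fun i => by omega
  simp only [e1, e2]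
  exact h3

theorem card_coll {m : ℕ} (a : Fin m → ℕ) (hMI : MI a) (b : ℕ) (P : Finset ℕ)
    (hP : ∀ p ∈ P, p.Prime ∧ ¬ p ∣ ∏ i, a i ∧ Coll a b p) :
    #P ≤ (2 * b + 1) ^ m * (b * (Nat.log 2 (∏ i, a i) + 1)) := by
  classical
  set W := (Fintype.piFinset (fun _ : Fin m => Finset.Icc (-(b : ℤ)) b)) with hW
  have hWc : #W = (2 * b + 1) ^ m := by
    rw [hW, Fintype.card_piFinset]
    simp only [Int.card_Icc, prod_const, card_univ, Fintype.card_fin]
    congr 1; omega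
  have hsub : P ⊆ (W.erase 0).biUnion (fun w => (Nw a w).primeFactors) := by
    intro p hp
    obtain ⟨h1, h2, u, v, huv, hu, hv, h3⟩ := hP p hp
    have hne : (fun i => (u i : ℤ) - v i) ≠ 0 := by
      intro h0
      apply huv
      funext i
      have := congrFun h0 i
      simp only [Pi.zero_apply] at this
      omega
    rw [mem_biUnion]
    refine ⟨fun i => (u i : ℤ) - v i, mem_erase.2 ⟨hne, ?_⟩, ?_⟩
    · rw [hW, Fintype.mem_piFinset]
      intro i
      rw [mem_Icc]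
      have := hu i; have := hv i
      constructor <;> omega
    · rw [Nat.mem_primeFactors]
      exact ⟨h1, dvd_Nw a h1 h2 u v h3, Nw_ne hMI hne⟩
  calc #P ≤ #((W.erase 0).biUnion (fun w => (Nw a w).primeFactors)) := card_le_card hsub
    _ ≤ ∑ w ∈ W.erase 0, #((Nw a w).primeFactors) := card_biUnion_le
    _ ≤ ∑ w ∈ W.erase 0, (b * (Nat.log 2 (∏ i, a i) + 1)) := by
        refine sum_le_sum fun w hw => ?_
        obtain ⟨hw0, hw1⟩ := mem_erase.1 hw
        rw [hW, Fintype.mem_piFinset] at hw1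
        refine (card_primeFactors_le (Nw_ne hMI hw0)).trans ?_
        have h4 : Nw a w ≤ (∏ i, a i) ^ b := Nw_le hMI fun i => by
          have := hw1 i
          rwa [mem_Icc] at this
        refine (Nat.log_mono_right h4).trans ?_
        have h5 : (∏ i, a i) ^ b < 2 ^ (b * (Nat.log 2 (∏ i, a i) + 1) + 1) := by
          calc (∏ i, a i) ^ b ≤ (2 ^ (Nat.log 2 (∏ i, a i) + 1)) ^ b :=
                Nat.pow_le_pow_left (Nat.lt_pow_succ_log_self (by norm_num) _).le _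
            _ = 2 ^ (b * (Nat.log 2 (∏ i, a i) + 1)) := by rw [← pow_mul, mul_comm]
            _ < _ := Nat.pow_lt_pow_right (by norm_num) (by omega)
        have h6 := Nat.log_lt_of_lt_pow (by
          have : 0 < (∏ i, a i) ^ b := pow_pos (prod_pos fun i _ => hMI.pos i) _
          omega) h5
        omega
    _ ≤ (2 * b + 1) ^ m * (b * (Nat.log 2 (∏ i, a i) + 1)) := by
        rw [sum_const, smul_eq_mul]
        refine Nat.mul_le_mul_right _ ?_
        rw [← hWc]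
        exact card_le_card (erase_subset _ _)

/-- without collisions the orders are large on the whole -/
theorem noColl {m K : ℕ} (hm : 0 < m) (a : Fin m → ℕ) (b p : ℕ) (hp : p.Prime)
    (hpa : ¬ p ∣ ∏ i, a i) (hc : ¬ Coll a b p) (T : Finset ℕ) (hT : T ⊆ range K) :
    ((b + 1) ^ m) ^ #T ≤ (K.factorial ^ (m * m)) ^ #T * p ^ (m - 1) *
        ∏ t ∈ T, orderOf ((∏ i, a i ^ (t ^ (i : ℕ)) : ℕ) : ZMod p) := by
  classical
  haveI := Fact.mk hp
  have hcop : ∀ i, Nat.Coprime (a i) p := by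
    intro i
    rw [Nat.coprime_comm, Nat.Prime.coprime_iff_not_dvd hp]
    intro h0
    exact hpa (h0.trans (dvd_prod_of_mem _ (mem_univ i)))
  set u : Fin m → (ZMod p)ˣ := fun i => ZMod.unitOfCoprime (a i) (hcop i) with hu
  have huc : ∀ i, ((u i : (ZMod p)ˣ) : ZMod p) = (a i : ZMod p) := fun i => ZMod.coe_unitOfCoprime _ _
  set Γ := Subgroup.closure (Set.range u) with hΓ
  have hcard : (b + 1) ^ m ≤ Nat.card Γ := by
    have h1 : (b + 1) ^ m = Nat.card (Fin m → Fin (b + 1)) := by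
      simp
    rw [h1]
    have hmemΓ : ∀ e : Fin m → Fin (b + 1), ∏ i, u i ^ (e i : ℕ) ∈ Γ := fun e =>
      Subgroup.prod_mem _ fun i _ => Subgroup.pow_mem _
        (Subgroup.subset_closure (Set.mem_range_self i)) _
    let f : (Fin m → Fin (b + 1)) → Γ := fun e => ⟨∏ i, u i ^ (e i : ℕ), hmemΓ e⟩
    refine Nat.card_le_card_of_injective f fun e e' hee => ?_
    by_contra hne
    apply hc
    refine ⟨fun i => (e i : ℕ), fun i => (e' i : ℕ), fun h => hne ?_,
      fun i => Nat.lt_succ_iff.1 (e i).2, fun i => Nat.lt_succ_iff.1 (e' i).2, ?_⟩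
    · funext i
      exact Fin.ext (congrFun h i)
    · have h2 := congrArg (fun z : Γ => (((z : (ZMod p)ˣ)) : ZMod p)) hee
      simp only [f] at h2
      push_cast at h2
      simpa only [huc] using h2
  have hle : Nat.card Γ ≤ p := by
    calc Nat.card Γ ≤ Nat.card (ZMod p)ˣ := Subgroup.card_le_card_group _
      _ = p - 1 := by rw [Nat.card_eq_fintype_card, ZMod.card_units]
      _ ≤ p := Nat.sub_le _ _
  have hord : ∀ t : ℕ, orderOf (∏ i, u i ^ (t ^ (i : ℕ))) =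
      orderOf ((∏ i, a i ^ (t ^ (i : ℕ)) : ℕ) : ZMod p) := by
    intro t
    rw [← orderOf_units]
    congr 1
    push_cast
    simp only [huc]
  have h1 := order_prod (K := K) hm u T hT
  rw [← hΓ] at h1
  simp only [hord] at h1
  have hB1 : (b + 1) ^ m ≤ p := hcard.trans hle
  have hordpos : ∀ t : ℕ, 0 < orderOf ((∏ i, a i ^ (t ^ (i : ℕ)) : ℕ) : ZMod p) := fun t => by
    rw [← hord t]; exact orderOf_pos _
  have hM0 : 0 < Nat.card Γ := Nat.card_pos
  by_cases hmT : m - 1 ≤ #T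
  · -- divide by a power of the group order
    have h2 : (Nat.card Γ) ^ (#T - (m - 1)) ≤ (K.factorial ^ (m * m)) ^ #T *
        ∏ t ∈ T, orderOf ((∏ i, a i ^ (t ^ (i : ℕ)) : ℕ) : ZMod p) := by
      have h3 : (Nat.card Γ) ^ #T = (Nat.card Γ) ^ (#T - (m - 1)) * (Nat.card Γ) ^ (m - 1) := by
        rw [← pow_add]; congr 1; omega
      rw [h3] at h1
      refine Nat.le_of_mul_le_mul_right (h1.trans (le_of_eq ?_)) (pow_pos hM0 (m - 1))
      ring
    calc ((b + 1) ^ m) ^ #T = ((b + 1) ^ m) ^ (#T - (m - 1)) * ((b + 1) ^ m) ^ (m - 1) := by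
          rw [← pow_add]; congr 1; omega
      _ ≤ (Nat.card Γ) ^ (#T - (m - 1)) * p ^ (m - 1) :=
          Nat.mul_le_mul (Nat.pow_le_pow_left hcard _) (Nat.pow_le_pow_left hB1 _)
      _ ≤ ((K.factorial ^ (m * m)) ^ #T *
        ∏ t ∈ T, orderOf ((∏ i, a i ^ (t ^ (i : ℕ)) : ℕ) : ZMod p)) * p ^ (m - 1) :=
          Nat.mul_le_mul_right _ h2
      _ = _ := by ring
  · have h4 : 1 ≤ ∏ t ∈ T, orderOf ((∏ i, a i ^ (t ^ (i : ℕ)) : ℕ) : ZMod p) :=
      Nat.succ_le_of_lt (prod_pos fun t _ => hordpos t)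
    have h5 : 1 ≤ (K.factorial ^ (m * m)) ^ #T :=
      Nat.succ_le_of_lt (pow_pos (pow_pos (Nat.factorial_pos K) _) _)
    calc ((b + 1) ^ m) ^ #T ≤ p ^ #T := Nat.pow_le_pow_left hB1 _
      _ ≤ p ^ (m - 1) := Nat.pow_le_pow_right hp.pos (by omega)
      _ = 1 * p ^ (m - 1) * 1 := by ring
      _ ≤ _ := Nat.mul_le_mul (Nat.mul_le_mul_right _ h5) h4

end Pool.Agent.W913.PR
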