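import Mathlib
import Pool.Agent.W913.PRB

set_option autoImplicit false

namespace Pool.Agent.W913.PR

open Finset Filter

/-- the integers `∏ a i ^ (t ^ i)` -/
def gt {m : ℕ} (a : Fin m → ℕ) (t : ℕ) : ℕ := ∏ i, a i ^ (t ^ (i : ℕ))

theorem partA {m : ℕ} (hm : 0 < m) (a : Fin m → ℕ) (hMI : MI a) (K : ℕ) (δ ε : ℝ) (hδ : 0 < δ)
    (hε : 0 < ε) :
    ∃ x₀ : ℕ, ∀ x : ℕ, x₀ ≤ x →
      (#{p ∈ range (x + 1) | p.Prime ∧ ((m : ℝ) - 1) / ε <
        #{t ∈ range K | (orderOf ((gt a t : ℕ) : ZMod p) : ℝ) ≤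
          (x : ℝ) ^ (δ * m / (m + 1) - ε)}} : ℝ) ≤ (x : ℝ) ^ δ := by
  classical
  set Q := ∏ i, a i with hQ
  have hQ0 : 0 < Q := prod_pos fun i _ => hMI.pos i
  set L := Nat.log 2 Q + 1 with hL
  set D := K.factorial ^ (m * m) with hD
  set r : ℕ := ⌊((m : ℝ) - 1) / ε⌋₊ + 1 with hr
  have hr1 : ((m : ℝ) - 1) / ε < r := by rw [hr]; push_cast; exact Nat.lt_floor_add_one _
  have hrpos : (0 : ℝ) < r := by rw [hr]; positivity
  have hmR : (1 : ℝ) ≤ m := by exact_mod_cast hm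
  set c : ℝ := r * ε - ((m : ℝ) - 1) with hc
  have hc0 : 0 < c := by
    rw [div_lt_iff₀ hε] at hr1
    rw [hc]; linarith
  set η : ℝ := min (δ / (2 * (m + 1))) (c / (4 * r * m)) with hη
  have hη0 : 0 < η := lt_min (by positivity) (by positivity)
  have hη1 : η ≤ δ / (2 * (m + 1)) := min_le_left _ _
  have hη2 : η * (r * m) ≤ c / 4 := by
    have h1 : η ≤ c / (4 * r * m) := min_le_right _ _
    have h2 : c / (4 * r * m) = c / 4 / (r * m) := by field_simp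
    rw [h2, le_div_iff₀ (by positivity)] at h1
    exact h1
  set β : ℝ := δ / (m + 1) - η with hβ
  have hβ0 : 0 < β := by
    have h1 : δ / (2 * ((m : ℝ) + 1)) < δ / (m + 1) :=
      div_lt_div_of_pos_left hδ (by positivity) (by linarith)
    rw [hβ]; linarith
  -- eventual conditions
  have hev1 : ∀ᶠ x : ℕ in atTop, ((D : ℝ) ^ r) < (x : ℝ) ^ (c / 2) :=
    ((tendsto_rpow_atTop (by linarith : 0 < c / 2)).comp
      tendsto_natCast_atTop_atTop).eventually_gt_atTop _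
  have hev2 : ∀ᶠ x : ℕ in atTop, ((L : ℝ) * (1 + 3 ^ m)) ≤ (x : ℝ) ^ (η * (m + 1)) :=
    ((tendsto_rpow_atTop (by positivity : 0 < η * (m + 1))).comp
      tendsto_natCast_atTop_atTop).eventually_ge_atTop _
  obtain ⟨x₀, hx₀⟩ := eventually_atTop.1 (hev1.and (hev2.and (eventually_ge_atTop 1)))
  refine ⟨x₀, fun x hx => ?_⟩
  obtain ⟨h1, h2, h3⟩ := hx₀ x hx
  have hx1 : (1 : ℝ) ≤ x := by exact_mod_cast h3
  have hx0 : (0 : ℝ) < x := by linarith
  set b : ℕ := ⌊(x : ℝ) ^ β⌋₊ with hb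
  have hb1 : 1 ≤ b := by
    rw [hb]; apply Nat.le_floor
    push_cast
    exact Real.one_le_rpow hx1 hβ0.le
  have hble : (b : ℝ) ≤ (x : ℝ) ^ β := Nat.floor_le (by positivity)
  have hbge : (x : ℝ) ^ β ≤ ((b + 1 : ℕ) : ℝ) := by
    push_cast; exact (Nat.lt_floor_add_one _).le
  set Bad := (range (x + 1)).filter (fun p => p.Prime ∧ ((m : ℝ) - 1) / ε <
        #{t ∈ range K | (orderOf ((gt a t : ℕ) : ZMod p) : ℝ) ≤
          (x : ℝ) ^ (δ * m / (m + 1) - ε)}) with hBad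
  have hsub : Bad ⊆ Q.primeFactors ∪ Bad.filter (fun p => ¬ p ∣ Q ∧ Coll a b p) := by
    intro p hp
    obtain ⟨hpx, hpp, hpT⟩ := mem_filter.1 hp
    rw [mem_union]
    by_cases hpQ : p ∣ Q
    · left; exact Nat.mem_primeFactors.2 ⟨hpp, hpQ, hQ0.ne'⟩
    right
    refine mem_filter.2 ⟨hp, hpQ, ?_⟩
    by_contra hcoll
    have hrle : r ≤ #{t ∈ range K | (orderOf ((gt a t : ℕ) : ZMod p) : ℝ) ≤
          (x : ℝ) ^ (δ * m / (m + 1) - ε)} := by
      rw [hr]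
      exact Nat.succ_le_of_lt ((Nat.floor_lt' (by
        intro h0
        rw [h0] at hpT
        have : (0 : ℝ) ≤ ((m : ℝ) - 1) / ε := div_nonneg (by linarith) hε.le
        simp only [Nat.cast_zero] at hpT
        linarith)).2 hpT)
    obtain ⟨T, hTs, hTc⟩ := exists_subset_card_eq hrle
    have hTK : T ⊆ range K := hTs.trans (filter_subset _ _)
    have h4 := noColl (K := K) hm a b p hpp hpQ hcoll T hTK
    rw [hTc, ← hD] at h4
    have h5 : (((b + 1 : ℕ) : ℝ) ^ m) ^ r ≤ (D : ℝ) ^ r * (p : ℝ) ^ (m - 1) *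
        ∏ t ∈ T, (orderOf ((∏ i, a i ^ (t ^ (i : ℕ)) : ℕ) : ZMod p) : ℝ) := by
      exact_mod_cast h4
    have h6 : ∏ t ∈ T, (orderOf ((∏ i, a i ^ (t ^ (i : ℕ)) : ℕ) : ZMod p) : ℝ) ≤
        ((x : ℝ) ^ (δ * m / (m + 1) - ε)) ^ r := by
      rw [← hTc, ← prod_const]
      exact prod_le_prod (fun _ _ => Nat.cast_nonneg _) fun t ht => (mem_filter.1 (hTs ht)).2
    have h7 : (p : ℝ) ^ (m - 1) ≤ (x : ℝ) ^ (m - 1) := by
      have : p ≤ x := Nat.lt_succ_iff.1 (mem_range.1 hpx)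
      have h8 : (p : ℝ) ≤ x := by exact_mod_cast this
      exact pow_le_pow_left₀ (Nat.cast_nonneg _) h8 _
    have h8 : (((x : ℝ) ^ β) ^ m) ^ r ≤ (D : ℝ) ^ r * (x : ℝ) ^ (m - 1) *
        ((x : ℝ) ^ (δ * m / (m + 1) - ε)) ^ r := by
      calc (((x : ℝ) ^ β) ^ m) ^ r ≤ (((b + 1 : ℕ) : ℝ) ^ m) ^ r := by gcongr
        _ ≤ _ := h5
        _ ≤ _ := by gcongr
    have h9 : (((x : ℝ) ^ β) ^ m) ^ r = (x : ℝ) ^ (β * m * r) := by
      rw [← Real.rpow_natCast, ← Real.rpow_natCast, ← Real.rpow_mul hx0.le, ← Real.rpow_mul hx0.le]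
    have h10 : (x : ℝ) ^ (m - 1) * ((x : ℝ) ^ (δ * m / (m + 1) - ε)) ^ r =
        (x : ℝ) ^ (((m : ℝ) - 1) + (δ * m / (m + 1) - ε) * r) := by
      rw [← Real.rpow_natCast, ← Real.rpow_natCast, ← Real.rpow_mul hx0.le, ← Real.rpow_add hx0]
      congr 2
      rw [Nat.cast_sub hm]; push_cast; ring
    rw [h9, mul_assoc ((D : ℝ) ^ r), h10] at h8
    have h11 : (x : ℝ) ^ (β * m * r) = (x : ℝ) ^ (β * m * r -
        (((m : ℝ) - 1) + (δ * m / (m + 1) - ε) * r)) *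
          (x : ℝ) ^ (((m : ℝ) - 1) + (δ * m / (m + 1) - ε) * r) := by
      rw [← Real.rpow_add hx0]; congr 1; ring
    rw [h11] at h8
    have h12 := le_of_mul_le_mul_right h8 (Real.rpow_pos_of_pos hx0 _)
    have h13 : c / 2 ≤ β * m * r - (((m : ℝ) - 1) + (δ * m / (m + 1) - ε) * r) := by
      have : β * m * r - (((m : ℝ) - 1) + (δ * m / (m + 1) - ε) * r) = c - η * (r * m) := by
        rw [hβ, hc]; ring
      rw [this]; linarith
    have h14 := Real.rpow_le_rpow_of_exponent_le hx1 h13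
    linarith
  have hcount := card_coll a hMI b (Bad.filter (fun p => ¬ p ∣ Q ∧ Coll a b p)) (fun p hp => by
    obtain ⟨h4, h5, h6⟩ := mem_filter.1 hp
    exact ⟨(mem_filter.1 h4).2.1, h5, h6⟩)
  have hcard : #Bad ≤ L + (2 * b + 1) ^ m * (b * L) := by
    calc #Bad ≤ _ := card_le_card hsub
      _ ≤ _ := card_union_le _ _
      _ ≤ L + (2 * b + 1) ^ m * (b * L) :=
        Nat.add_le_add ((card_primeFactors_le hQ0.ne').trans (Nat.le_succ _)) hcount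
  have hcard2 : #Bad ≤ L * (1 + 3 ^ m) * b ^ (m + 1) := by
    calc #Bad ≤ L + (2 * b + 1) ^ m * (b * L) := hcard
      _ ≤ L * b ^ (m + 1) + (3 * b) ^ m * (b * L) := by
          gcongr
          · exact Nat.le_mul_of_pos_right _ (pow_pos hb1 _)
          · omega
      _ = _ := by rw [mul_pow]; ring
  calc (#Bad : ℝ) ≤ ((L * (1 + 3 ^ m) * b ^ (m + 1) : ℕ) : ℝ) := by exact_mod_cast hcard2
    _ = (L : ℝ) * (1 + 3 ^ m) * (b : ℝ) ^ (m + 1) := by push_cast; ring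
    _ ≤ (x : ℝ) ^ (η * (m + 1)) * ((x : ℝ) ^ β) ^ (m + 1) := by gcongr
    _ = (x : ℝ) ^ δ := by
        rw [← Real.rpow_natCast, ← Real.rpow_mul hx0.le, ← Real.rpow_add hx0]
        congr 1
        rw [hβ]; push_cast; field_simp; ring

end Pool.Agent.W913.PR
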