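import Mathlib
import Pool.Agent.W913.PRC

set_option autoImplicit false

namespace Pool.Agent.W913.PR

open Finset Filter

/-- the first `m` primes -/
noncomputable def ap (m : ℕ) (i : Fin m) : ℕ := Nat.nth Nat.Prime i

lemma ap_prime (m : ℕ) (i : Fin m) : (ap m i).Prime := Nat.prime_nth_prime _

lemma ap_inj (m : ℕ) : Function.Injective (ap m) := by
  intro i j h
  exact Fin.ext (Nat.nth_injective Nat.infinite_setOfPred_prime h)

lemma ap_fact (m : ℕ) (u : Fin m → ℕ) (j : Fin m) :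
    (∏ i, ap m i ^ u i).factorization (ap m j) = u j := by
  rw [Nat.factorization_prod (fun i _ => pow_ne_zero _ (ap_prime m i).ne_zero)]
  simp only [Finsupp.coe_finsetSum, Finset.sum_apply, Nat.factorization_pow, Finsupp.coe_smul,
    Pi.smul_apply, smul_eq_mul]
  rw [sum_eq_single j]
  · rw [(ap_prime m j).factorization_self, mul_one]
  · intro i _ hij
    rw [(ap_prime m i).factorization, Finsupp.single_apply, if_neg (fun h => hij (ap_inj m h)),
      mul_zero]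
  · intro h; exact absurd (mem_univ j) h

lemma ap_MI (m : ℕ) : MI (ap m) := by
  intro u v h
  funext j
  rw [← ap_fact m u j, ← ap_fact m v j, h]

lemma gt_inj {m : ℕ} (hm : 1 < m) {a : Fin m → ℕ} (ha : MI a) : Function.Injective (gt a) := by
  intro t t' h
  have := congrFun (ha _ _ h) ⟨1, hm⟩
  simpa using this

/-- the order of `g` modulo `p` is less than `p ^ (1 - ε)` -/
def Low (ε : ℝ) (g p : ℕ) : Prop := (orderOf (g : ZMod p) : ℝ) < (p : ℝ) ^ (1 - ε)

open Classical in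
theorem partB0 (ε : ℝ) (hε : 0 < ε) (hε1 : ε < 1) :
    ∃ G : Finset ℕ, G.Nonempty ∧ ∃ c : ℝ, 0 ≤ c ∧ c ≤ ε ^ 2 * #G / 2 ∧
      ∃ x₀ : ℕ, ∀ x : ℕ, x₀ ≤ x →
        (#{p ∈ range (x + 1) | p.Prime ∧ c < #{g ∈ G | Low ε g p}} : ℝ) ≤
          (x : ℝ) ^ (1 - ε / 4) := by
  set m : ℕ := ⌈4 / ε⌉₊ + 1 with hm
  have hm4 : 4 / ε ≤ (m : ℝ) := by
    rw [hm]; push_cast
    have := Nat.le_ceil (4 / ε)
    linarith
  have hm1 : 1 < m := by
    have h1 : 0 < ⌈4 / ε⌉₊ := Nat.ceil_pos.2 (by positivity)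
    omega
  have hmR : (0 : ℝ) < m := by positivity
  set K : ℕ := ⌈8 * m / ε ^ 3⌉₊ with hK
  have hKR : 8 * m / ε ^ 3 ≤ (K : ℝ) := Nat.le_ceil _
  have hK0 : 0 < K := Nat.ceil_pos.2 (by positivity)
  obtain ⟨x₀, hx₀⟩ := partA (by omega : 0 < m) (ap m) (ap_MI m) K (1 - ε / 4) (ε / 4)
    (by linarith) (by linarith)
  have hinj := gt_inj hm1 (ap_MI m)
  have hGc : #((range K).image (gt (ap m))) = K := by
    rw [card_image_of_injective _ hinj, card_range]
  refine ⟨(range K).image (gt (ap m)), ?_, ((m : ℝ) - 1) / (ε / 4), ?_, ?_, max x₀ 1,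
    fun x hx => ?_⟩
  · rw [← card_pos, hGc]; exact hK0
  · have : (1 : ℝ) ≤ m := by exact_mod_cast hm1.le
    exact div_nonneg (by linarith) (by linarith)
  · rw [hGc]
    have h1 : ε ^ 2 * (8 * m / ε ^ 3) / 2 ≤ ε ^ 2 * K / 2 := by gcongr
    have h2 : ε ^ 2 * (8 * m / ε ^ 3) / 2 = (m : ℝ) / (ε / 4) := by field_simp; norm_num
    rw [h2] at h1
    refine le_trans ?_ h1
    gcongr; linarith
  · have hxx : x₀ ≤ x := le_of_max_le_left hx
    have hx1 : (1 : ℝ) ≤ x := by exact_mod_cast le_of_max_le_right hx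
    refine le_trans (Nat.cast_le.2 (card_le_card ?_)) (hx₀ x hxx)
    intro p hp
    obtain ⟨h1, h2, h3⟩ := mem_filter.1 hp
    refine mem_filter.2 ⟨h1, h2, lt_of_lt_of_le h3 (Nat.cast_le.2 ?_)⟩
    have h4 : #{g ∈ (range K).image (gt (ap m)) | Low ε g p} =
        #{t ∈ range K | Low ε (gt (ap m) t) p} := by
      rw [filter_image, card_image_of_injective _ hinj]
    rw [h4]
    apply card_le_card
    intro t ht
    obtain ⟨h5, h6⟩ := mem_filter.1 ht
    refine mem_filter.2 ⟨h5, ?_⟩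
    unfold Low at h6
    refine h6.le.trans ?_
    have h7 : (p : ℝ) ≤ x := by
      have : p ≤ x := Nat.lt_succ_iff.1 (mem_range.1 h1)
      exact_mod_cast this
    have h8 : (p : ℝ) ^ (1 - ε) ≤ (x : ℝ) ^ (1 - ε) :=
      Real.rpow_le_rpow (Nat.cast_nonneg _) h7 (by linarith)
    refine h8.trans (Real.rpow_le_rpow_of_exponent_le hx1 ?_)
    have h9 : (1 - ε / 4) * m / (m + 1) = (1 - ε / 4) - (1 - ε / 4) / (m + 1) := by
      field_simp; ring
    rw [h9]
    have h10 : (1 - ε / 4) / ((m : ℝ) + 1) ≤ ε / 4 := by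
      rw [div_le_iff₀ (by positivity)]
      have h11 : 4 ≤ ε * m := by
        rw [div_le_iff₀ hε] at hm4; linarith
      nlinarith
    linarith

open Classical in
theorem partB (ε : ℝ) (hε : 0 < ε) (hε1 : ε < 1) :
    ∃ G : Finset ℕ, G.Nonempty ∧ ∃ x₀ : ℕ, ∀ x : ℕ, x₀ ≤ x →
        (#{p ∈ range (x + 1) | p.Prime ∧ ε * #G < #{g ∈ G | Low ε g p}} : ℝ) ≤
          (x : ℝ) ^ (1 - ε / 4) ∧
        ∀ P : Finset ℕ, (∀ p ∈ P, p.Prime ∧ p ≤ x) → (x : ℝ) ^ (1 - ε / 8) ≤ #P →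
          (#{g ∈ G | ε * #P < #{p ∈ P | Low ε g p}} : ℝ) ≤ ε * #G := by
  obtain ⟨G, hG, c, hc0, hc, x₁, hx₁⟩ := partB0 ε hε hε1
  have hG0 : (0 : ℝ) < #G := by exact_mod_cast card_pos.2 hG
  have hcε : c ≤ ε * #G := by
    refine hc.trans ?_
    nlinarith
  have hev : ∀ᶠ x : ℕ in atTop, 2 / ε ^ 2 ≤ (x : ℝ) ^ (ε / 8) :=
    ((tendsto_rpow_atTop (by linarith : 0 < ε / 8)).comp
      tendsto_natCast_atTop_atTop).eventually_ge_atTop _
  obtain ⟨x₂, hx₂⟩ := eventually_atTop.1 (hev.and (eventually_ge_atTop 1))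
  refine ⟨G, hG, max x₁ x₂, fun x hx => ⟨?_, fun P hP hPc => ?_⟩⟩
  · refine le_trans ?_ (hx₁ x (le_of_max_le_left hx))
    norm_cast
    apply card_le_card
    intro p hp
    obtain ⟨h1, h2, h3⟩ := mem_filter.1 hp
    exact mem_filter.2 ⟨h1, h2, lt_of_le_of_lt hcε h3⟩
  · obtain ⟨h2, h3⟩ := hx₂ x (le_of_max_le_right hx)
    have hx1 : (1 : ℝ) ≤ x := by exact_mod_cast h3
    have hx0 : (0 : ℝ) < x := by linarith
    set E := (range (x + 1)).filter (fun p => p.Prime ∧ c < #{g ∈ G | Low ε g p}) with hE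
    have hEc : (#E : ℝ) ≤ (x : ℝ) ^ (1 - ε / 4) := hx₁ x (le_of_max_le_left hx)
    have hP0 : (0 : ℝ) < #P := lt_of_lt_of_le (Real.rpow_pos_of_pos hx0 _) hPc
    have hEP : (#E : ℝ) ≤ ε ^ 2 / 2 * #P := by
      have h4 : (x : ℝ) ^ (1 - ε / 8) = (x : ℝ) ^ (1 - ε / 4) * (x : ℝ) ^ (ε / 8) := by
        rw [← Real.rpow_add hx0]; congr 1; ring
      have h5 : (x : ℝ) ^ (1 - ε / 4) * (2 / ε ^ 2) ≤ #P := by
        refine le_trans ?_ hPc
        rw [h4]; gcongr
      have h6 : (x : ℝ) ^ (1 - ε / 4) = ε ^ 2 / 2 * ((x : ℝ) ^ (1 - ε / 4) * (2 / ε ^ 2)) := by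
        field_simp
      calc (#E : ℝ) ≤ _ := hEc
        _ = _ := h6
        _ ≤ _ := by gcongr
    have hsum : ∑ g ∈ G, (#{p ∈ P | Low ε g p} : ℝ) = ∑ p ∈ P, (#{g ∈ G | Low ε g p} : ℝ) := by
      simp only [card_filter, Nat.cast_sum]
      exact sum_comm
    have hle : ∑ p ∈ P, (#{g ∈ G | Low ε g p} : ℝ) ≤ ε ^ 2 * #G * #P := by
      have h7 : ∀ p ∈ P, (#{g ∈ G | Low ε g p} : ℝ) ≤ c + if p ∈ E then (#G : ℝ) else 0 := by
        intro p hp
        obtain ⟨h8, h9⟩ := hP p hp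
        split_ifs with h10
        · have : (#{g ∈ G | Low ε g p} : ℝ) ≤ #G := by exact_mod_cast card_filter_le _ _
          linarith
        · rw [add_zero]
          by_contra h11
          push Not at h11
          exact h10 (mem_filter.2 ⟨mem_range.2 (by omega), h8, h11⟩)
      calc ∑ p ∈ P, (#{g ∈ G | Low ε g p} : ℝ) ≤ ∑ p ∈ P, (c + if p ∈ E then (#G : ℝ) else 0) :=
            sum_le_sum h7
        _ = #P * c + #(P.filter (fun p => p ∈ E)) * #G := by
            rw [sum_add_distrib, sum_const, nsmul_eq_mul, ← sum_filter, sum_const, nsmul_eq_mul]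
        _ ≤ #P * (ε ^ 2 * #G / 2) + (ε ^ 2 / 2 * #P) * #G := by
            gcongr
            refine le_trans ?_ hEP
            norm_cast
            exact card_le_card fun p hp => (mem_filter.1 hp).2
        _ = _ := by ring
    set S := G.filter (fun g => ε * #P < #{p ∈ P | Low ε g p}) with hS
    have h12 : (#S : ℝ) * (ε * #P) ≤ ε ^ 2 * #G * #P := by
      calc (#S : ℝ) * (ε * #P) = ∑ g ∈ S, ε * (#P : ℝ) := by rw [sum_const, nsmul_eq_mul]
        _ ≤ ∑ g ∈ S, (#{p ∈ P | Low ε g p} : ℝ) := sum_le_sum fun g hg => (mem_filter.1 hg).2.le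
        _ ≤ ∑ g ∈ G, (#{p ∈ P | Low ε g p} : ℝ) :=
            sum_le_sum_of_subset_of_nonneg (filter_subset _ _) fun _ _ _ => Nat.cast_nonneg _
        _ = _ := hsum
        _ ≤ _ := hle
    have h13 : (0 : ℝ) < ε * #P := by positivity
    have h14 : ε ^ 2 * #G * #P = (ε * #G) * (ε * #P) := by ring
    rw [h14] at h12
    exact le_of_mul_le_mul_right h12 h13

lemma pi_large (δ : ℝ) (hδ : δ < 1) : ∀ᶠ x : ℕ in atTop, (x : ℝ) ^ δ ≤ (Nat.primeCounting x : ℝ) := by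
  have h1 : ∀ᶠ x : ℕ in atTop, Real.log x ≤ (1 / 4) * (x : ℝ) ^ (1 - δ) := by
    have h := (isLittleO_log_rpow_atTop (by linarith : 0 < 1 - δ)).bound (c := 1 / 4) (by norm_num)
    have h' := tendsto_natCast_atTop_atTop.eventually h
    filter_upwards [h', eventually_ge_atTop 1] with x hx hx1
    rw [Real.norm_of_nonneg (Real.log_nonneg (by exact_mod_cast hx1)),
      Real.norm_of_nonneg (by positivity)] at hx
    exact hx
  have h2 : ∀ᶠ x : ℕ in atTop, Real.log ((x : ℝ) + 1) ≤ (1 / 4) * (x : ℝ) := by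
    have h := (Real.isLittleO_log_id_atTop).bound (c := 1 / 8) (by norm_num)
    have h' := (tendsto_natCast_atTop_atTop.comp (tendsto_add_atTop_nat 1)).eventually h
    filter_upwards [h', eventually_ge_atTop 1] with x hx hx1
    have hx1' : (1 : ℝ) ≤ x := by exact_mod_cast hx1
    simp only [Function.comp, id, Nat.cast_add, Nat.cast_one] at hx
    rw [Real.norm_of_nonneg (Real.log_nonneg (by linarith)),
      Real.norm_of_nonneg (by positivity)] at hx
    linarith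
  filter_upwards [h1, h2, eventually_ge_atTop 2] with x hx1 hx2 hx3
  have hx2' : (2 : ℝ) ≤ x := by exact_mod_cast hx3
  have hlog : 0 < Real.log x := Real.log_pos (by linarith)
  refine le_trans ?_ (Chebyshev.pi_ge x)
  rw [le_div_iff₀ hlog]
  have h3 : (x : ℝ) ^ δ * Real.log x ≤ (x : ℝ) ^ δ * ((1 / 4) * (x : ℝ) ^ (1 - δ)) := by gcongr
  have h4 : (x : ℝ) ^ δ * ((1 / 4) * (x : ℝ) ^ (1 - δ)) = 1 / 4 * x := by
    have : (x : ℝ) ^ δ * (x : ℝ) ^ (1 - δ) = x := by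
      rw [← Real.rpow_add (by linarith)]
      simp
    calc _ = 1 / 4 * ((x : ℝ) ^ δ * (x : ℝ) ^ (1 - δ)) := by ring
      _ = _ := by rw [this]
  have h5 := Real.log_two_gt_d9
  nlinarith

open Classical in
theorem partC (ε : ℝ) (hε : 0 < ε) (hε1 : ε < 1) :
    ∃ g : ℕ, ∀ x₁ : ℕ, ∃ x : ℕ, x₁ ≤ x ∧ (1 - ε) * (Nat.primeCounting x : ℝ) ≤
      #((range (x + 1)).filter (fun p : ℕ => p.Prime ∧
        (p : ℝ) ^ (1 - ε) ≤ (orderOf (g : ZMod p) : ℝ))) := by
  obtain ⟨G, hG, x₀, hx₀⟩ := partB ε hε hε1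
  have hG0 : (0 : ℝ) < #G := by exact_mod_cast card_pos.2 hG
  obtain ⟨x₂, hx₂⟩ := eventually_atTop.1 (pi_large (1 - ε / 8) (by linarith))
  have hgood : ∀ x : ℕ, max x₀ x₂ ≤ x → ∃ g ∈ G, (1 - ε) * (Nat.primeCounting x : ℝ) ≤
      #((range (x + 1)).filter (fun p : ℕ => p.Prime ∧
        (p : ℝ) ^ (1 - ε) ≤ (orderOf (g : ZMod p) : ℝ))) := by
    intro x hx
    set P := (range (x + 1)).filter Nat.Prime with hP
    have hPc : #P = Nat.primeCounting x := by
      rw [Nat.primeCounting, Nat.primeCounting', Nat.count_eq_card_filter_range]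
    have h1 := (hx₀ x (le_of_max_le_left hx)).2 P (fun p hp => by
      obtain ⟨h2, h3⟩ := mem_filter.1 hp
      exact ⟨h3, Nat.lt_succ_iff.1 (mem_range.1 h2)⟩) (by
        rw [hPc]; exact hx₂ x (le_of_max_le_right hx))
    have h2 : ∃ g ∈ G, ¬ ε * #P < #{p ∈ P | Low ε g p} := by
      by_contra hcon
      push Not at hcon
      rw [filter_true_of_mem (fun g hg => hcon g hg)] at h1
      nlinarith
    obtain ⟨g, hg, h3⟩ := h2
    refine ⟨g, hg, ?_⟩
    push Not at h3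
    have h4 : #((range (x + 1)).filter (fun p : ℕ => p.Prime ∧
        (p : ℝ) ^ (1 - ε) ≤ (orderOf (g : ZMod p) : ℝ))) =
        #(P.filter (fun p => ¬ Low ε g p)) := by
      rw [hP, filter_filter]
      congr 1
      apply filter_congr
      intro p _
      unfold Low
      rw [not_lt]
    have h5 := card_filter_add_card_filter_not (s := P) (fun p => Low ε g p)
    have h6 : (#{p ∈ P | Low ε g p} : ℝ) + #(P.filter (fun p => ¬ Low ε g p)) = #P := by
      exact_mod_cast h5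
    rw [h4, ← hPc]
    linarith
  by_contra hcon
  push Not at hcon
  choose f hf using hcon
  obtain ⟨g, hg, h7⟩ := hgood (max (max x₀ x₂) (∑ g ∈ G, f g)) (le_max_left _ _)
  have h8 := hf g (max (max x₀ x₂) (∑ g ∈ G, f g)) (le_trans
    (single_le_sum (f := f) (fun _ _ => Nat.zero_le _) hg) (le_max_right _ _))
  linarith

end Pool.Agent.W913.PR
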